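import Pool.Agent.V11210.ZZ.Gen
import Pool.Agent.U831.HY.Main

/-!
# The distribution of the multiples of the forms
`(n ζ(2)ζ(3) - b ζ(3) - c ζ(4) - e_1 z_1 - … - e_r z_r) / ζ(2)` modulo one
-/

set_option autoImplicit false

namespace Pool.Agent.U831.ZP

open Finset Filter Pool.Agent.U831.JE Pool.Agent.V11210.ZZ

/-- the integer vectors `((n, b, c), (e_1, …, e_r))` -/
abbrev Vec3 (r : ℕ) : Type := (Fin 3 → ℤ) × (Fin r → ℤ)

/-- `(n ζ(2) ζ(3) - b ζ(3) - c ζ(4) - e_1 z_1 - … - e_r z_r) / ζ(2)` -/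
noncomputable def form {r : ℕ} (z : Fin r → ℝ) (v : Vec3 r) : ℝ :=
  (v.1 0 * (zeta 2 * zeta 3) - v.1 1 * zeta 3 - v.1 2 * zeta 4 - ∑ i, v.2 i * z i) / zeta 2

/-- an integer vector as a rational vector -/
def toRat {r : ℕ} (v : Vec3 r) : (Fin 3 → ℚ) × (Fin r → ℚ) := (fun i => v.1 i, fun i => v.2 i)

lemma cnt_sub_int (α γ u v : ℝ) (m : ℤ) (N : ℕ) : cnt (α - m) γ u v N = cnt α γ u v N := by
  unfold cnt
  have h : ∀ n : ℕ, Int.fract ((n : ℝ) * (α - m) + γ) = Int.fract ((n : ℝ) * α + γ) := by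
    intro n
    have : (n : ℝ) * (α - m) + γ = (n : ℝ) * α + γ - ((n * m : ℤ) : ℝ) := by
      push_cast; ring
    rw [this, Int.fract_sub_intCast]
  simp only [h]

lemma discLe_sub_int (α : ℝ) (m : ℤ) (N : ℕ) (D : ℝ) : DiscLe (α - m) N D ↔ DiscLe α N D := by
  unfold DiscLe
  simp only [cnt_sub_int]

/-- the constant -/
noncomputable def KK (r : ℕ) : ℝ := 20 * (zeta 2 * |zeta 3| + |zeta 3| + |zeta 4| + r + 1)

lemma KK_ge (r : ℕ) : 20 ≤ KK r := by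
  have h2 := one_le_zeta_two
  unfold KK
  have : 0 ≤ zeta 2 * |zeta 3| := by positivity
  have h3 := abs_nonneg (zeta 3)
  have h4 := abs_nonneg (zeta 4)
  have h5 : (0 : ℝ) ≤ r := by positivity
  linarith

/-- a bad vector gives a near relation -/
lemma near_of_bad {r : ℕ} (z : Fin r → ℝ) (hz : ∀ i, 0 ≤ z i ∧ z i ≤ zeta 2) (κ : ℝ) (hκ : 0 < κ)
    (N : ℕ) (hN : 1 ≤ N) (hN1 : 42 * Real.sqrt N ≤ (N : ℝ) ^ (1 - κ)) (v : Vec3 r)
    (h1 : ∀ i, |(v.1 i : ℝ)| ≤ (N : ℝ) ^ κ) (h2 : ∀ i, |(v.2 i : ℝ)| ≤ (N : ℝ) ^ κ)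
    (hbad : ¬ DiscLe (form z v) N ((N : ℝ) ^ (-κ))) :
    ∃ (q : ℕ) (p : ℤ), 1 ≤ q ∧
      (∀ i, |((![(q : ℤ) * v.1 0, p, (q : ℤ) * v.1 1, (q : ℤ) * v.1 2] i : ℤ) : ℝ)| ≤
        KK r * (N : ℝ) ^ (2 * κ)) ∧
      (∀ i, |(((q : ℤ) * v.2 i : ℤ) : ℝ)| ≤ KK r * (N : ℝ) ^ (2 * κ)) ∧
      |value z ((![(q : ℤ) * v.1 0, p, (q : ℤ) * v.1 1, (q : ℤ) * v.1 2],
        fun i => (q : ℤ) * v.2 i) : Vec r)| ≤ 40 * ((N : ℝ) ^ κ / N) := by
  obtain ⟨q, p, hq1, hqN, hp⟩ := Pool.Agent.U831.HY.near (form z v) N κ hN hN1 hbad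
  have hN0 : (1 : ℝ) ≤ N := by exact_mod_cast hN
  have hNk : 1 ≤ (N : ℝ) ^ κ := Real.one_le_rpow hN0 hκ.le
  have hNk2 : (N : ℝ) ^ (2 * κ) = (N : ℝ) ^ κ * (N : ℝ) ^ κ := by
    rw [two_mul, Real.rpow_add (by linarith)]
  have hK := KK_ge r
  have hz2 := one_le_zeta_two
  have hz2' := zeta_two_le
  have hq0 : (0 : ℝ) < q := by exact_mod_cast hq1
  set T := (N : ℝ) ^ κ with hT
  have hgen : ∀ x : ℤ, |(x : ℝ)| ≤ T → |(((q : ℤ) * x : ℤ) : ℝ)| ≤ KK r * (N : ℝ) ^ (2 * κ) := by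
    intro x hx
    push_cast
    rw [abs_mul, abs_of_pos hq0, hNk2]
    calc (q : ℝ) * |(x : ℝ)| ≤ 20 * T * T := mul_le_mul hqN hx (abs_nonneg _) (by positivity)
      _ ≤ KK r * (T * T) := by nlinarith [mul_pos (by linarith : (0:ℝ) < T) (by linarith : (0:ℝ) < T)]
  -- the size of the form
  have hθ : |form z v| ≤ T * (zeta 2 * |zeta 3| + |zeta 3| + |zeta 4| + r) := by
    unfold form
    rw [abs_div, abs_of_pos (by linarith : (0 : ℝ) < zeta 2), div_le_iff₀ (by linarith)]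
    have e1 : |(v.1 0 : ℝ) * (zeta 2 * zeta 3)| ≤ T * (zeta 2 * |zeta 3|) := by
      rw [abs_mul, abs_mul, abs_of_pos (by linarith : (0 : ℝ) < zeta 2)]
      exact mul_le_mul_of_nonneg_right (h1 0) (by positivity)
    have e2 : |(v.1 1 : ℝ) * zeta 3| ≤ T * |zeta 3| := by
      rw [abs_mul]
      exact mul_le_mul_of_nonneg_right (h1 1) (by positivity)
    have e3 : |(v.1 2 : ℝ) * zeta 4| ≤ T * |zeta 4| := by
      rw [abs_mul]
      exact mul_le_mul_of_nonneg_right (h1 2) (by positivity)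
    have e4 : |∑ i, (v.2 i : ℝ) * z i| ≤ T * r * zeta 2 := by
      calc |∑ i, (v.2 i : ℝ) * z i| ≤ ∑ i, |(v.2 i : ℝ) * z i| := Finset.abs_sum_le_sum_abs _ _
        _ ≤ ∑ _i : Fin r, T * zeta 2 := by
            refine Finset.sum_le_sum fun i _ => ?_
            rw [abs_mul, abs_of_nonneg (hz i).1]
            exact mul_le_mul (h2 i) (hz i).2 (hz i).1 (by positivity)
        _ = T * r * zeta 2 := by
            rw [Finset.sum_const, card_univ, Fintype.card_fin, nsmul_eq_mul]; ring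
    have e5 : |(v.1 0 : ℝ) * (zeta 2 * zeta 3) - v.1 1 * zeta 3 - v.1 2 * zeta 4 -
        ∑ i, (v.2 i : ℝ) * z i| ≤ |(v.1 0 : ℝ) * (zeta 2 * zeta 3)| + |(v.1 1 : ℝ) * zeta 3| +
          |(v.1 2 : ℝ) * zeta 4| + |∑ i, (v.2 i : ℝ) * z i| := by
      refine (abs_sub _ _).trans ?_
      refine add_le_add ?_ le_rfl
      refine (abs_sub _ _).trans ?_
      refine add_le_add ?_ le_rfl
      exact abs_sub _ _
    have hT0 : (0 : ℝ) ≤ T := by linarith
    have e6 : 0 ≤ T * (zeta 2 * |zeta 3| + |zeta 3| + |zeta 4|) := by positivity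
    nlinarith [e1, e2, e3, e4, e5]
  have hpb : |(p : ℝ)| ≤ KK r * (N : ℝ) ^ (2 * κ) := by
    have h3 : |(p : ℝ)| ≤ |(q : ℝ) * form z v| + |(q : ℝ) * form z v - p| := by
      have := abs_sub_abs_le_abs_sub (p : ℝ) ((q : ℝ) * form z v)
      rw [abs_sub_comm] at this
      linarith
    have h4 : 20 * T / N ≤ 20 * T := div_le_self (by positivity) hN0
    have h5 : |(q : ℝ) * form z v| ≤ 20 * T * (T * (zeta 2 * |zeta 3| + |zeta 3| + |zeta 4| + r)) := by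
      rw [abs_mul, abs_of_pos hq0]
      exact mul_le_mul hqN hθ (abs_nonneg _) (by positivity)
    rw [hNk2]
    have h6 : KK r * (T * T) = 20 * T * (T * (zeta 2 * |zeta 3| + |zeta 3| + |zeta 4| + r)) + 20 * T * T := by
      unfold KK; ring
    rw [h6]
    have h7 : 20 * T ≤ 20 * T * T := by nlinarith
    linarith
  refine ⟨q, p, hq1, ?_, fun i => hgen _ (h2 i), ?_⟩
  · intro i
    fin_cases i
    · exact hgen _ (h1 0)
    · exact hpb
    · exact hgen _ (h1 1)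
    · exact hgen _ (h1 2)
  · have h8 : value z ((![(q : ℤ) * v.1 0, p, (q : ℤ) * v.1 1, (q : ℤ) * v.1 2],
        fun i => (q : ℤ) * v.2 i) : Vec r) = zeta 2 * ((q : ℝ) * form z v - p) := by
      unfold value form
      have hne : zeta 2 ≠ 0 := by linarith
      have hs : ∑ i, (((q : ℤ) * v.2 i : ℤ) : ℝ) * z i = q * ∑ i, (v.2 i : ℝ) * z i := by
        rw [Finset.mul_sum]
        refine Finset.sum_congr rfl fun i _ => ?_
        push_cast; ring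
      simp only [Matrix.cons_val_zero, Matrix.cons_val_one, Matrix.cons_val]
      rw [hs]
      field_simp
      push_cast
      ring
    rw [h8, abs_mul, abs_of_pos (by linarith : (0 : ℝ) < zeta 2)]
    calc zeta 2 * |(q : ℝ) * form z v - p| ≤ 2 * (20 * T / N) :=
          mul_le_mul hz2' hp (abs_nonneg _) (by norm_num)
      _ = 40 * (T / N) := by ring

end Pool.Agent.U831.ZP
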