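import Pool.Agent.U831.ZP.Main

/-!
# One space of exceptional forms on long ranges of scales
-/

set_option autoImplicit false

namespace Pool.Agent.U831.ZP

open Finset Filter Pool.Agent.U831.JE Pool.Agent.V11210.ZZ

/-- the vectors which are bad at some scale between `X` and `X ^ M` -/
def bad {r : ℕ} (κ M : ℝ) (z : Fin r → ℝ) (X : ℝ) : Set (Vec3 r) :=
  {v | ∃ N : ℕ, X ≤ N ∧ (N : ℝ) ≤ X ^ M ∧ (∀ i, |(v.1 i : ℝ)| ≤ (N : ℝ) ^ κ) ∧
    (∀ i, |(v.2 i : ℝ)| ≤ (N : ℝ) ^ κ) ∧ ¬ DiscLe (form z v) N ((N : ℝ) ^ (-κ))}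

/-- the near relation of a bad vector, all at the same scale -/
lemma exists_scale (r : ℕ) (c : ℝ) (hc : 0 < c) (k : ℕ) (M : ℝ) (hM : 1 ≤ M) :
    ∃ κ : ℝ, 0 < κ ∧ κ < 1 / 2 ∧ ∃ X₀ : ℝ, 1 ≤ X₀ ∧ ∀ z : Fin r → ℝ, (∀ i, 0 ≤ z i ∧ z i ≤ zeta 2) →
      ∀ X : ℝ, X₀ ≤ X → ∃ Y : ℝ, 1 ≤ Y ∧ ∀ v ∈ bad κ M z X, ∃ (q : ℕ) (p : ℤ), 1 ≤ q ∧
        ((![(q : ℤ) * v.1 0, p, (q : ℤ) * v.1 1, (q : ℤ) * v.1 2],
          fun i => (q : ℤ) * v.2 i) : Vec r) ∈ near c k z Y ∧
        |value z ((![(q : ℤ) * v.1 0, p, (q : ℤ) * v.1 1, (q : ℤ) * v.1 2],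
          fun i => (q : ℤ) * v.2 i) : Vec r)| < 1 := by
  set κ : ℝ := 1 / (4 * (M * k + 1)) with hκdef
  have hk0 : (0 : ℝ) ≤ k := by positivity
  have hMk : 0 ≤ M * k := by positivity
  have hκ : 0 < κ := by positivity
  have hκ4 : κ ≤ 1 / 4 := by
    rw [hκdef]
    apply one_div_le_one_div_of_le (by norm_num)
    linarith
  have hexp : κ + 2 * κ * M * k ≤ 1 / 2 := by
    have h1 : κ * (4 * (M * k + 1)) = 1 := by
      rw [hκdef]; field_simp
    nlinarith
  have hKK := KK_ge r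
  set B : ℝ := c / (40 * KK r ^ k) with hB
  have hB0 : 0 < B := by positivity
  -- large `X`
  have hlim : ∀ᶠ X : ℝ in atTop, X ^ (-(1 / 2) : ℝ) < min B (1 / 80) := by
    have := tendsto_rpow_neg_atTop (show (0 : ℝ) < 1 / 2 by norm_num)
    exact this.eventually_lt_const (lt_min hB0 (by norm_num))
  obtain ⟨X₁, hX₁⟩ := eventually_atTop.1 hlim
  refine ⟨κ, hκ, by linarith, max X₁ (42 ^ 4), ?_, ?_⟩
  · exact le_trans (by norm_num) (le_max_right _ _)
  intro z hz X hX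
  have hX1 : X₁ ≤ X := (le_max_left _ _).trans hX
  have hX4 : (42 : ℝ) ^ 4 ≤ X := (le_max_right _ _).trans hX
  have hX0 : 1 ≤ X := le_trans (by norm_num) hX4
  have hXp : 0 < X := by linarith
  have hsm := hX₁ X hX1
  refine ⟨KK r * X ^ (2 * κ * M), ?_, ?_⟩
  · have : 1 ≤ X ^ (2 * κ * M) := Real.one_le_rpow hX0 (by positivity)
    nlinarith
  rintro v ⟨N, hXN, hNX, h1, h2, hbad⟩
  have hN1 : 1 ≤ (N : ℝ) := hX0.trans hXN
  have hN1' : 1 ≤ N := by exact_mod_cast hN1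
  have hNp : 0 < (N : ℝ) := by linarith
  have h42 : 42 * Real.sqrt N ≤ (N : ℝ) ^ (1 - κ) := by
    have e1 : (42 : ℝ) ≤ (N : ℝ) ^ ((1 : ℝ) / 4) := by
      have e2 : (42 : ℝ) = ((42 : ℝ) ^ 4) ^ ((1 : ℝ) / 4) := by
        rw [← Real.rpow_natCast (42 : ℝ) 4, ← Real.rpow_mul (by norm_num)]
        norm_num
      rw [e2]
      exact Real.rpow_le_rpow (by norm_num) (hX4.trans hXN) (by norm_num)
    calc 42 * Real.sqrt N ≤ (N : ℝ) ^ ((1 : ℝ) / 4) * (N : ℝ) ^ ((1 : ℝ) / 2) := by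
          rw [Real.sqrt_eq_rpow]
          exact mul_le_mul_of_nonneg_right e1 (by positivity)
      _ = (N : ℝ) ^ ((3 : ℝ) / 4) := by
          rw [← Real.rpow_add hNp]; norm_num
      _ ≤ (N : ℝ) ^ (1 - κ) := Real.rpow_le_rpow_of_exponent_le hN1 (by linarith)
  obtain ⟨q, p, hq, hb1, hb2, hval⟩ := near_of_bad z hz κ hκ N hN1' h42 v h1 h2 hbad
  have hsize : (N : ℝ) ^ (2 * κ) ≤ X ^ (2 * κ * M) := by
    calc (N : ℝ) ^ (2 * κ) ≤ (X ^ M) ^ (2 * κ) := Real.rpow_le_rpow hNp.le hNX (by positivity)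
      _ = X ^ (2 * κ * M) := by
          rw [← Real.rpow_mul hXp.le]; ring_nf
  have hsize' : KK r * (N : ℝ) ^ (2 * κ) ≤ KK r * X ^ (2 * κ * M) :=
    mul_le_mul_of_nonneg_left hsize (by linarith)
  have hsmall : (N : ℝ) ^ κ / N ≤ X ^ (κ - 1) := by
    have e1 : (N : ℝ) ^ κ / N = (N : ℝ) ^ (κ - 1) := by
      rw [Real.rpow_sub hNp, Real.rpow_one]
    rw [e1]
    exact Real.rpow_le_rpow_of_nonpos hXp hXN (by linarith)
  refine ⟨q, p, hq, ⟨fun i => (hb1 i).trans hsize', fun i => (hb2 i).trans hsize', ?_⟩, ?_⟩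
  · refine hval.trans_lt ?_
    have e2 : (KK r * X ^ (2 * κ * M)) ^ k = KK r ^ k * X ^ (2 * κ * M * k) := by
      rw [mul_pow, ← Real.rpow_natCast (X ^ (2 * κ * M)) k, ← Real.rpow_mul hXp.le]
    rw [e2, lt_div_iff₀ (by positivity)]
    have e3 : X ^ (κ - 1) * X ^ (2 * κ * M * k) ≤ X ^ (-(1 / 2) : ℝ) := by
      rw [← Real.rpow_add hXp]
      exact Real.rpow_le_rpow_of_exponent_le hX0 (by linarith)
    have e4 : X ^ (-(1 / 2) : ℝ) < B := hsm.trans_le (min_le_left _ _)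
    calc 40 * ((N : ℝ) ^ κ / N) * (KK r ^ k * X ^ (2 * κ * M * k))
        ≤ 40 * X ^ (κ - 1) * (KK r ^ k * X ^ (2 * κ * M * k)) := by
          apply mul_le_mul_of_nonneg_right _ (by positivity)
          linarith
      _ = 40 * KK r ^ k * (X ^ (κ - 1) * X ^ (2 * κ * M * k)) := by ring
      _ ≤ 40 * KK r ^ k * X ^ (-(1 / 2) : ℝ) := mul_le_mul_of_nonneg_left e3 (by positivity)
      _ < 40 * KK r ^ k * B := mul_lt_mul_of_pos_left e4 (by positivity)
      _ = c := by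
          rw [hB]; field_simp
  · refine hval.trans_lt ?_
    have e3 : X ^ (κ - 1) ≤ X ^ (-(1 / 2) : ℝ) :=
      Real.rpow_le_rpow_of_exponent_le hX0 (by linarith)
    have e4 : X ^ (-(1 / 2) : ℝ) < 1 / 80 := hsm.trans_le (min_le_right _ _)
    linarith

lemma finrank_le {r n : ℕ} (S : Set (Vec3 r))
    (h : ∀ V : Fin (n + 1) → Vec3 r, (∀ j, V j ∈ S) → ∃ l : Fin (n + 1) → ℤ, l ≠ 0 ∧ ∑ j, l j • V j = 0) :
    Module.finrank ℚ (Submodule.span ℚ (toRat '' S)) ≤ n := by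
  by_contra hcon
  push Not at hcon
  obtain ⟨f, hf, -, hli⟩ := Submodule.exists_fun_fin_finrank_span_eq ℚ (toRat '' S)
  choose g hg hgf using hf
  have hle : n + 1 ≤ Module.finrank ℚ (Submodule.span ℚ (toRat '' S)) := hcon
  obtain ⟨l, hl, hl0⟩ := h (fun j => g (Fin.castLE hle j)) (fun j => hg _)
  have hli' : LinearIndependent ℚ (fun j : Fin (n + 1) => f (Fin.castLE hle j)) :=
    hli.comp _ (Fin.castLE_injective hle)
  rw [Fintype.linearIndependent_iff] at hli'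
  apply hl
  funext j
  have h1 := hli' (fun j => (l j : ℚ)) (by
    have e : ∀ j : Fin (n + 1), ((l j : ℤ) : ℚ) • f (Fin.castLE hle j) = toRat (l j • g (Fin.castLE hle j)) := by
      intro j
      rw [← hgf]
      unfold toRat
      refine Prod.ext ?_ ?_
      · funext i
        simp
      · funext i
        simp
    have hsum : ∀ s : Finset (Fin (n + 1)), ∑ j ∈ s, toRat (l j • g (Fin.castLE hle j)) = toRat (∑ j ∈ s, l j • g (Fin.castLE hle j)) := by
      intro s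
      classical
      induction s using Finset.induction_on with
      | empty => exact Prod.ext (funext fun i => by simp [toRat]) (funext fun i => by simp [toRat])
      | insert a s ha ih =>
        rw [Finset.sum_insert ha, Finset.sum_insert ha, ih]
        unfold toRat
        refine Prod.ext ?_ ?_
        · funext i
          simp
        · funext i
          simp
    rw [Finset.sum_congr rfl (fun j _ => e j), hsum, hl0]
    exact Prod.ext (funext fun i => by simp [toRat]) (funext fun i => by simp [toRat])) j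
  have h2 : ((l j : ℤ) : ℚ) = 0 := h1
  exact_mod_cast h2

/-- the reduction to numbers between `0` and `ζ(2)` -/
lemma bad_reduce {r : ℕ} (κ M : ℝ) (z : Fin r → ℝ) (X : ℝ) : ∃ z' : Fin r → ℝ,
    (∀ i, 0 ≤ z' i ∧ z' i ≤ zeta 2) ∧ bad κ M z X = bad κ M z' X := by
  have hz2 := one_le_zeta_two
  have hz0 : (0 : ℝ) < zeta 2 := by linarith
  refine ⟨fun i => z i - ⌊z i / zeta 2⌋ * zeta 2, fun i => ⟨?_, ?_⟩, ?_⟩
  · have := Int.floor_le (z i / zeta 2)
    rw [le_div_iff₀ hz0] at this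
    linarith
  · have := (Int.lt_floor_add_one (z i / zeta 2)).le
    rw [div_le_iff₀ hz0] at this
    linarith
  · have hform : ∀ v : Vec3 r, form z v =
        form (fun i => z i - ⌊z i / zeta 2⌋ * zeta 2) v - ((∑ i, v.2 i * ⌊z i / zeta 2⌋ : ℤ) : ℝ) := by
      intro v
      unfold form
      have hne : zeta 2 ≠ 0 := hz0.ne'
      have hs : ∑ i, (v.2 i : ℝ) * (z i - ⌊z i / zeta 2⌋ * zeta 2) =
          ∑ i, (v.2 i : ℝ) * z i - (∑ i, (v.2 i : ℝ) * ⌊z i / zeta 2⌋) * zeta 2 := by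
        rw [Finset.sum_mul, ← Finset.sum_sub_distrib]
        exact Finset.sum_congr rfl fun i _ => by ring
      rw [hs]
      push_cast
      field_simp
      ring
    unfold bad
    ext v
    simp only [Set.mem_ofPred_eq]
    have : ∀ N : ℕ, DiscLe (form z v) N ((N : ℝ) ^ (-κ)) ↔
        DiscLe (form (fun i => z i - ⌊z i / zeta 2⌋ * zeta 2) v) N ((N : ℝ) ^ (-κ)) := by
      intro N
      rw [hform v, discLe_sub_int]
    simp only [this]

theorem general (r : ℕ) (M : ℝ) (hM : 1 ≤ M) :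
    ∃ κ : ℝ, 0 < κ ∧ ∃ X₀ : ℝ, ∀ z : Fin r → ℝ, ∀ X : ℝ, X₀ ≤ X →
      Module.finrank ℚ (Submodule.span ℚ (toRat '' bad κ M z X)) ≤ r + 1 := by
  obtain ⟨c, hc, k, hgen⟩ := gen r
  obtain ⟨κ, hκ, -, X₀, -, h⟩ := exists_scale r c hc k M hM
  refine ⟨κ, hκ, X₀, fun z X hX => ?_⟩
  obtain ⟨z', hz', he⟩ := bad_reduce κ M z X
  rw [he]
  obtain ⟨Y, hY, hw⟩ := h z' hz' X hX
  refine finrank_le _ fun V hV => ?_
  have hh := fun j => hw (V j) (hV j)
  choose q p hq hn hn1 using hh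
  obtain ⟨l, hl, hl0⟩ := hgen z' Y hY _ hn
  refine ⟨fun j => l j * q j, fun h0 => hl (funext fun j => ?_), ?_⟩
  · have h1 := congrFun h0 j
    have h2 : ((q j : ℕ) : ℤ) ≠ 0 := by
      have := hq j
      omega
    have h3 : l j * (q j : ℤ) = 0 := h1
    rcases mul_eq_zero.1 h3 with h4 | h4
    · exact h4
    · exact absurd h4 h2
  · have hf := congrArg Prod.fst hl0
    have hs := congrArg Prod.snd hl0
    refine Prod.ext ?_ ?_
    · funext i
      have key : ∀ a : Fin 4, ∑ j, l j * (![(q j : ℤ) * (V j).1 0, p j, (q j : ℤ) * (V j).1 1, (q j : ℤ) * (V j).1 2] a) = 0 := by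
        intro a
        have := congrFun hf a
        rw [Prod.fst_sum, Finset.sum_apply] at this
        exact this
      have k0 := key 0
      have k1 := key 2
      have k2 := key 3
      simp only [Matrix.cons_val_zero, Matrix.cons_val] at k0 k1 k2
      simp only [Prod.fst_sum, Prod.smul_fst, Finset.sum_apply, Pi.smul_apply, smul_eq_mul, Prod.fst_zero, Pi.zero_apply]
      fin_cases i
      · rw [← k0]
        exact Finset.sum_congr rfl fun j _ => by simp; ring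
      · rw [← k1]
        exact Finset.sum_congr rfl fun j _ => by simp; ring
      · rw [← k2]
        exact Finset.sum_congr rfl fun j _ => by simp; ring
    · funext i
      have key : ∑ j, l j * ((q j : ℤ) * (V j).2 i) = 0 := by
        have := congrFun hs i
        simpa [Prod.snd_sum, Finset.sum_apply] using this
      simp only [Prod.snd_sum, Prod.smul_snd, Finset.sum_apply, Pi.smul_apply, smul_eq_mul, Prod.snd_zero, Pi.zero_apply]
      rw [← key]
      exact Finset.sum_congr rfl fun j _ => by ring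

/-- without further numbers -/
theorem line (M : ℝ) (hM : 1 ≤ M) : ∃ κ : ℝ, 0 < κ ∧ ∃ X₀ : ℝ, ∀ z : Fin 0 → ℝ, ∀ X : ℝ, X₀ ≤ X →
    ∃ u : Fin 3 → ℤ, u 1 ≠ 0 ∧ (u 0 ≠ 0 ∨ u 2 ≠ 0) ∧ ∀ v ∈ bad κ M z X, ∀ i j, u i * v.1 j = u j * v.1 i := by
  obtain ⟨c, hc, k, hbase⟩ := base
  obtain ⟨κ, hκ, -, X₀, -, h⟩ := exists_scale 0 c hc k M hM
  refine ⟨κ, hκ, X₀, fun z X hX => ?_⟩
  obtain ⟨Y, hY, hw⟩ := h z (fun i => i.elim0) X hX
  -- the vectors
  have hprop : ∀ v ∈ bad κ M z X, ∀ v' ∈ bad κ M z X, ∀ i j, v.1 i * v'.1 j = v.1 j * v'.1 i := by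
    intro v hv v' hv'
    obtain ⟨q, p, hq, hn, -⟩ := hw v hv
    obtain ⟨q', p', hq', hn', -⟩ := hw v' hv'
    have h1 := (hbase z Y hY _ hn).2 _ hn'
    have hqq : ((q : ℤ) * q') ≠ 0 := by
      have : (1 : ℤ) ≤ q := by exact_mod_cast hq
      have : (1 : ℤ) ≤ q' := by exact_mod_cast hq'
      positivity
    have a01 := h1 0 2
    have a02 := h1 0 3
    have a12 := h1 2 3
    simp only [Matrix.cons_val_zero, Matrix.cons_val] at a01 a02 a12
    have b01 : v.1 0 * v'.1 1 = v.1 1 * v'.1 0 := mul_left_cancel₀ hqq (by linear_combination a01)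
    have b02 : v.1 0 * v'.1 2 = v.1 2 * v'.1 0 := mul_left_cancel₀ hqq (by linear_combination a02)
    have b12 : v.1 1 * v'.1 2 = v.1 2 * v'.1 1 := mul_left_cancel₀ hqq (by linear_combination a12)
    intro i j
    fin_cases i <;> fin_cases j <;> simp <;> linarith
  have hne : ∀ v ∈ bad κ M z X, v.1 ≠ 0 → v.1 1 ≠ 0 ∧ (v.1 0 ≠ 0 ∨ v.1 2 ≠ 0) := by
    intro v hv hv0
    obtain ⟨q, p, hq, hn, -⟩ := hw v hv
    have hq0 : (q : ℤ) ≠ 0 := by
      have : (1 : ℤ) ≤ q := by exact_mod_cast hq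
      omega
    have h1 := (hbase z Y hY _ hn).1 (by
      intro h0
      apply hv0
      have hf := congrArg Prod.fst h0
      have e0 := congrFun hf 0
      have e1 := congrFun hf 2
      have e2 := congrFun hf 3
      simp only [Matrix.cons_val_zero, Matrix.cons_val, Prod.fst_zero, Pi.zero_apply, mul_eq_zero] at e0 e1 e2
      funext i
      fin_cases i
      · exact e0.resolve_left hq0
      · exact e1.resolve_left hq0
      · exact e2.resolve_left hq0)
    simp only [Matrix.cons_val_zero, Matrix.cons_val_one, Matrix.cons_val] at h1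
    refine ⟨fun h2 => h1.1 (by rw [h2, mul_zero]), ?_⟩
    by_contra hcon
    push Not at hcon
    apply h1.2
    rw [hcon.1, hcon.2]
    ring
  by_cases hex : ∃ v ∈ bad κ M z X, v.1 ≠ 0
  · obtain ⟨v₀, hv₀, hv0⟩ := hex
    exact ⟨v₀.1, (hne v₀ hv₀ hv0).1, (hne v₀ hv₀ hv0).2, fun v hv => hprop v₀ hv₀ v hv⟩
  · push Not at hex
    refine ⟨![1, 1, 0], by simp, Or.inl (by simp), fun v hv i j => ?_⟩
    rw [hex v hv]
    simp

end Pool.Agent.U831.ZP
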